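import Pool.Agent.W544.K3.Defs4
import Pool.Agent.W537.DB.Der
import Pool.Agent.W537.DB.Rat
import Pool.Agent.W537.DB.Calc

/-!
# K3-DER4
-/

open Module Finset

namespace Pool.Agent.W32.K3D

open Pool.Agent.W544.K3 Pool.Agent.W537.DB

noncomputable section

variable {n N k : ℕ}

lemma swap_sum (j : Fin k) (F : (Fin k → Fin n) → Fin n → ℂ) :
    ∑ I, ∑ l, F (Function.update I j l) (I j) = ∑ I, ∑ l, F I l := by
  rw [← Fintype.sum_prod_type', ← Fintype.sum_prod_type']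
  refine Finset.sum_nbij' (fun p => (Function.update p.1 j p.2, p.1 j))
    (fun p => (Function.update p.1 j p.2, p.1 j)) ?_ ?_ ?_ ?_ ?_
  · exact fun _ _ => Finset.mem_univ _
  · exact fun _ _ => Finset.mem_univ _
  · rintro ⟨I, l⟩ _
    simp
  · rintro ⟨I, l⟩ _
    simp
  · rintro ⟨I, l⟩ _
    rfl

/-- inversion -/
lemma inv_tensor (D : Matrix (Fin n) (Fin n) ℂ) (hD : D.det ≠ 0) (c : (Fin k → Fin n) → ℂ)
    (h : ∀ J : Fin k → Fin n, ∑ I, c I * ∏ i, D (I i) (J i) = 0) (K : Fin k → Fin n) : c K = 0 := by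
  have h1 : D * D⁻¹ = 1 := Matrix.mul_nonsing_inv _ (isUnit_iff_ne_zero.2 hD)
  have h2 : ∀ I : Fin k → Fin n, ∑ J : Fin k → Fin n, (∏ i, D (I i) (J i)) * ∏ i, D⁻¹ (J i) (K i) =
      if I = K then 1 else 0 := by
    intro I
    have h3 : ∀ J : Fin k → Fin n, (∏ i, D (I i) (J i)) * ∏ i, D⁻¹ (J i) (K i) =
        ∏ i, D (I i) (J i) * D⁻¹ (J i) (K i) := fun J => (Finset.prod_mul_distrib).symm
    simp only [h3]
    rw [← Fintype.prod_sum (fun i j => D (I i) j * D⁻¹ j (K i))]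
    have h4 : ∀ i, ∑ j, D (I i) j * D⁻¹ j (K i) = (1 : Matrix (Fin n) (Fin n) ℂ) (I i) (K i) := by
      intro i
      rw [← h1, Matrix.mul_apply]
    simp only [h4]
    by_cases hIK : I = K
    · rw [if_pos hIK, hIK]
      exact Finset.prod_eq_one fun i _ => Matrix.one_apply_eq _
    · rw [if_neg hIK]
      have : ∃ i, I i ≠ K i := by
        by_contra hcon
        push Not at hcon
        exact hIK (funext hcon)
      obtain ⟨i, hi⟩ := this
      exact Finset.prod_eq_zero (Finset.mem_univ i) (Matrix.one_apply_ne hi)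
  have h5 : ∑ J : Fin k → Fin n, (∑ I, c I * ∏ i, D (I i) (J i)) * ∏ i, D⁻¹ (J i) (K i) = c K := by
    have h6 : ∀ J : Fin k → Fin n, (∑ I, c I * ∏ i, D (I i) (J i)) * ∏ i, D⁻¹ (J i) (K i) =
        ∑ I, c I * ((∏ i, D (I i) (J i)) * ∏ i, D⁻¹ (J i) (K i)) := by
      intro J
      rw [Finset.sum_mul]
      exact Finset.sum_congr rfl fun I _ => mul_assoc _ _ _
    simp only [h6]
    rw [Finset.sum_comm]
    simp only [← Finset.mul_sum, h2]
    simp
  rw [← h5]
  exact Finset.sum_eq_zero fun J _ => by rw [h J, zero_mul]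

variable (X : Multi n N)

/-- the equations -/
lemma kill_eq (δ : Derivation ℤ ℂ ℂ) (t : (Fin k → Fin n) → ℚ) (ht : X.IsDRB t)
    (x : Matrix (Fin n) (Fin n) ℂ) (hx : X.D.map δ = x * X.D) (I : Fin k → Fin n) :
    ∑ j, ∑ l, x l (I j) * (t (Function.update I j l) : ℂ) = 0 := by
  refine inv_tensor X.D X.det (fun I => ∑ j, ∑ l, x l (I j) * (t (Function.update I j l) : ℂ))
    (fun J => ?_) I
  have h1 := der_alg δ (ht J)
  rw [map_sum] at h1
  have h2 : ∀ I : Fin k → Fin n, δ ((t I : ℂ) * ∏ j, X.D (I j) (J j)) =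
      ∑ j, ∑ l, (t I : ℂ) * (x (I j) l * (X.D l (J j) * ∏ i ∈ univ \ {j}, X.D (I i) (J i))) := by
    intro I
    rw [Derivation.leibniz, der_rat, smul_zero, add_zero, smul_eq_mul, der_prod, Finset.mul_sum]
    refine Finset.sum_congr rfl fun j _ => ?_
    rw [Finset.prod_update_of_mem (Finset.mem_univ j)]
    have h3 : δ (X.D (I j) (J j)) = ∑ l, x (I j) l * X.D l (J j) := by
      rw [← Matrix.mul_apply, ← hx, Matrix.map_apply]
    rw [h3, Finset.sum_mul, Finset.mul_sum]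
    refine Finset.sum_congr rfl fun l _ => ?_
    ring
  simp only [h2] at h1
  rw [Finset.sum_comm] at h1
  have h4 : ∀ I : Fin k → Fin n,
      (∑ j, ∑ l, x l (I j) * (t (Function.update I j l) : ℂ)) * ∏ i, X.D (I i) (J i) =
      ∑ j, ∑ l, (t (Function.update I j l) : ℂ) * (x (Function.update I j l j) (I j) *
        (X.D (I j) (J j) * ∏ i ∈ univ \ {j}, X.D (Function.update I j l i) (J i))) := by
    intro I
    rw [Finset.sum_mul]
    refine Finset.sum_congr rfl fun j _ => ?_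
    rw [Finset.sum_mul]
    refine Finset.sum_congr rfl fun l _ => ?_
    rw [Function.update_self, Finset.prod_eq_mul_prod_sdiff_singleton_of_mem (Finset.mem_univ j)]
    have h5 : ∏ i ∈ univ \ {j}, X.D (Function.update I j l i) (J i) =
        ∏ i ∈ univ \ {j}, X.D (I i) (J i) := by
      refine Finset.prod_congr rfl fun i hi => ?_
      rw [Finset.mem_sdiff, Finset.mem_singleton] at hi
      rw [Function.update_of_ne hi.2]
    rw [h5]
    ring
  refine (Finset.sum_congr rfl fun I _ => h4 I).trans ?_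
  rw [Finset.sum_comm]
  refine Eq.trans (Finset.sum_congr rfl fun j _ => ?_) h1
  exact swap_sum j (fun I l => (t I : ℂ) * (x (I j) l *
    (X.D l (J j) * ∏ i ∈ univ \ {j}, X.D (I i) (J i))))

/-- the coefficients of the equations -/
def co (t : (Fin k → Fin n) → ℚ) (I : Fin k → Fin n) (p : Fin n × Fin n) : ℚ :=
  ∑ j, if p.2 = I j then t (Function.update I j p.1) else 0

lemma co_sum (t : (Fin k → Fin n) → ℚ) (I : Fin k → Fin n) (u : Fin n × Fin n → ℂ) :
    ∑ p, ((co t I p : ℚ) : ℂ) * u p = ∑ j, ∑ l, u (l, I j) * (t (Function.update I j l) : ℂ) := by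
  have h0 : ∀ l m : Fin n, ((co t I (l, m) : ℚ) : ℂ) * u (l, m) =
      ∑ j, if m = I j then u (l, m) * (t (Function.update I j l) : ℂ) else 0 := by
    intro l m
    unfold co
    rw [Rat.cast_sum, Finset.sum_mul]
    refine Finset.sum_congr rfl fun j _ => ?_
    by_cases h : m = I j
    · simp only [if_pos h]
      ring
    · simp only [if_neg h]
      simp
  have h1 : ∀ l : Fin n, ∑ m : Fin n, ((co t I (l, m) : ℚ) : ℂ) * u (l, m) =
      ∑ j, u (l, I j) * (t (Function.update I j l) : ℂ) := by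
    intro l
    rw [Finset.sum_congr rfl fun m _ => h0 l m, Finset.sum_comm]
    refine Finset.sum_congr rfl fun j _ => ?_
    simp
  rw [Fintype.sum_prod_type, Finset.sum_congr rfl fun l _ => h1 l, Finset.sum_comm]

lemma log_mem (δ : Derivation ℤ ℂ ℂ) :
    X.D.map δ * X.D⁻¹ ∈ Submodule.span ℂ (mC '' X.lie) := by
  have hu : IsUnit X.D.det := isUnit_iff_ne_zero.2 X.det
  have hx : X.D.map δ = (X.D.map δ * X.D⁻¹) * X.D := by
    rw [Matrix.mul_assoc, Matrix.nonsing_inv_mul _ hu, Matrix.mul_one]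
  obtain ⟨x, hx'⟩ : ∃ x, x = X.D.map δ * X.D⁻¹ := ⟨_, rfl⟩
  rw [← hx'] at hx ⊢
  have h1 := rational_span (N := Fin n × Fin n) ⊥
    {b | ∃ (k : ℕ) (t : (Fin k → Fin n) → ℚ), X.IsDRB t ∧ ∃ I, b = fun p => ((co t I p : ℚ) : ℂ)}
    (by
      rintro b ⟨k, t, ht, I, rfl⟩ p
      exact (IntermediateField.mem_bot).2 ⟨co t I p, by simp⟩)
    (w := fun p => x p.1 p.2) (by
      rintro b ⟨k, t, ht, I, rfl⟩
      rw [co_sum t I (fun p => x p.1 p.2)]
      exact kill_eq X δ t ht x hx I)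
  let φ : (Fin n × Fin n → ℂ) →ₗ[ℂ] Matrix (Fin n) (Fin n) ℂ :=
    { toFun := fun u => Matrix.of fun l m => u (l, m)
      map_add' := fun _ _ => rfl
      map_smul' := fun _ _ => rfl }
  have h2 : φ (fun p => x p.1 p.2) = x := rfl
  rw [← h2]
  have h3 := Submodule.mem_map_of_mem (f := φ) h1
  rw [Submodule.map_span] at h3
  refine Submodule.span_mono ?_ h3
  rintro _ ⟨u, ⟨hu1, hu2⟩, rfl⟩
  have h4 : ∀ p, ∃ q : ℚ, (q : ℂ) = u p := by
    intro p
    obtain ⟨q, hq⟩ := (IntermediateField.mem_bot).1 (hu1 p)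
    exact ⟨q, by rw [← hq]; simp⟩
  choose q hq using h4
  refine ⟨Matrix.of fun l m => q (l, m), ?_, ?_⟩
  · intro k t ht I
    have h5 := hu2 _ ⟨k, t, ht, I, rfl⟩
    rw [co_sum] at h5
    simp only [← hq] at h5
    have h6 : (((∑ j, ∑ l, q (l, I j) * t (Function.update I j l) : ℚ)) : ℂ) = 0 := by
      push_cast
      exact h5
    exact_mod_cast h6
  · ext l m
    show ((q (l, m) : ℚ) : ℂ) = u (l, m)
    exact hq _

lemma mC_map (δ : Derivation ℤ ℂ ℂ) (P : Matrix (Fin n) (Fin n) ℚ) : (mC P).map δ = 0 := by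
  ext i j
  exact der_rat δ (P i j)

lemma mC_mul (P Q : Matrix (Fin n) (Fin n) ℚ) : mC (P * Q) = mC P * mC Q := by
  ext i j
  show ((((P * Q) i j : ℚ)) : ℂ) = _
  rw [Matrix.mul_apply, Matrix.mul_apply]
  push_cast
  rfl

lemma comm_span (P : Matrix (Fin n) (Fin n) ℚ) (hP : ∀ x ∈ X.lie, P * x = x * P)
    (y : Matrix (Fin n) (Fin n) ℂ) (hy : y ∈ Submodule.span ℂ (mC '' X.lie)) :
    mC P * y = y * mC P := by
  refine Submodule.span_induction (p := fun y _ => mC P * y = y * mC P) ?_ ?_ ?_ ?_ hy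
  · rintro _ ⟨x, hx, rfl⟩
    rw [← mC_mul, ← mC_mul, hP x hx]
  · rw [Matrix.mul_zero, Matrix.zero_mul]
  · intro a b _ _ h1 h2
    rw [Matrix.mul_add, Matrix.add_mul, h1, h2]
  · intro c a _ h1
    rw [Matrix.mul_smul, Matrix.smul_mul, h1]

theorem der4 : S_der4 := by
  intro n N X
  refine ⟨fun δ => log_mem X δ, fun P hP i j => ?_⟩
  have hu : IsUnit X.D.det := isUnit_iff_ne_zero.2 X.det
  have e1 : X.D * X.D⁻¹ = 1 := Matrix.mul_nonsing_inv _ hu
  have e2 : X.D⁻¹ * X.D = 1 := Matrix.nonsing_inv_mul _ hu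
  apply alg_of_der
  intro δ
  obtain ⟨x, hx⟩ : ∃ x, x = X.D.map δ * X.D⁻¹ := ⟨_, rfl⟩
  have hD : X.D.map δ = x * X.D := by rw [hx, Matrix.mul_assoc, e2, Matrix.mul_one]
  have hc : mC P * x = x * mC P := by
    rw [hx]; exact comm_span X P hP _ (log_mem X δ)
  have hI : X.D⁻¹.map δ = -(X.D⁻¹ * x) := by
    have h1 := der_mul δ X.D X.D⁻¹
    rw [e1, der_one, hD] at h1
    have h2 : x + X.D * X.D⁻¹.map δ = 0 := by
      rw [Matrix.mul_assoc, e1, Matrix.mul_one] at h1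
      exact h1.symm
    have h3 : X.D⁻¹ * (x + X.D * X.D⁻¹.map δ) = 0 := by rw [h2, Matrix.mul_zero]
    rw [Matrix.mul_add, ← Matrix.mul_assoc, e2, Matrix.one_mul] at h3
    exact eq_neg_of_add_eq_zero_right h3
  have key : (X.D⁻¹ * mC P * X.D).map δ = 0 := by
    rw [der_mul, der_mul, mC_map, Matrix.mul_zero, add_zero, hI, hD, Matrix.neg_mul,
      Matrix.neg_mul]
    rw [Matrix.mul_assoc X.D⁻¹ x, ← hc]
    simp only [Matrix.mul_assoc]
    exact neg_add_cancel _
  exact congrFun (congrFun key i) j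

end

end Pool.Agent.W32.K3D
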